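import Pool.Agent.Zk92.Kur.Poset

/-!
# The chain condition, and supports of antichains
-/

open Set Cardinal Pool.Agent.Helper669.Forcing
open Pool.Agent.R591.SPL (fiff SameSet PF Cn)

namespace Pool.Agent.Zk92.Kur

theorem fun_le {R A : Type} (hR : #R ≤ ℵ₀) (hA : #A ≤ 𝔠) : #(R → A) ≤ 𝔠 := by
  have h1 : #(R → A) = #A ^ #R := by simp
  rw [h1]
  calc #A ^ #R ≤ 𝔠 ^ #R := Cardinal.power_le_power_right hA
    _ ≤ 𝔠 ^ ℵ₀ := Cardinal.power_le_power_left Cardinal.continuum_ne_zero hR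
    _ = 𝔠 := Cardinal.continuum_power_aleph0

theorem W_le : #W1 ≤ 𝔠 := by
  rw [Cardinal.mk_ord_toType, ← succ_aleph0]
  exact Order.succ_le_of_lt Cardinal.aleph0_lt_continuum

theorem prod_le {A B : Type} (hA : #A ≤ 𝔠) (hB : #B ≤ 𝔠) : #(A × B) ≤ 𝔠 := by
  rw [Cardinal.mk_prod, Cardinal.lift_id, Cardinal.lift_id]
  exact (mul_le_mul' hA hB).trans (Cardinal.mul_eq_self Cardinal.aleph0_le_continuum).le

variable {N D : Type}

/-- The chain condition, with a pigeonhole principle. -/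
theorem exists_compat {E : Type} (hE : 𝔠 < #E) {C : Type} (hC : #C ≤ 𝔠) (h : E → C)
    (p : E → PP N D) : ∃ e e', e ≠ e' ∧ h e = h e' ∧ ∃ r, r ≤ p e ∧ r ≤ p e' := by
  have hχ' : ℵ₀ ≤ 𝔠 := Cardinal.aleph0_le_continuum
  have hℵ : ℵ₁ ≤ 𝔠 := by
    rw [← succ_aleph0]
    exact Order.succ_le_of_lt Cardinal.aleph0_lt_continuum
  have hpow : ∀ τ < ℵ₁, 𝔠 ^ τ ≤ 𝔠 := by
    intro τ hτ
    rw [← succ_aleph0, Order.lt_succ_iff] at hτ
    exact (Cardinal.power_le_power_left Cardinal.continuum_ne_zero hτ).trans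
      Cardinal.continuum_power_aleph0.le
  have hT0 : ¬ #(univ : Set E) ≤ 𝔠 := by
    rw [mk_univ]; exact not_le.2 hE
  obtain ⟨T1, ⟨c, δ⟩, _, hT1, hc⟩ := Pool.Agent.Helper292.SP.pigeon hχ' univ hT0
    (fun e => (h e, (p e).1.δ)) (prod_le hC W_le)
  have hδ : ∀ e ∈ T1, (p e).1.δ = δ := fun e he => (Prod.mk.inj (hc e he)).2
  have hδc : #(Iio δ) ≤ ℵ₀ := (W_Iio δ).le_aleph0
  have hB : #Bool ≤ 𝔠 := (Cardinal.mk_le_aleph0).trans hχ'
  -- enumerations of the indices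
  have hen : ∀ e : E, ∃ f : ℕ → N, (p e).1.D = range f := fun e =>
    (p e).1.hD.exists_eq_range (p e).1.hne
  choose en hen using hen
  obtain ⟨T2, v, hT21, hT2, hv⟩ := Pool.Agent.Helper292.SP.pigeon hχ' T1 hT1
    (fun e => fun (n : ℕ) (ξ : Iio δ) => (p e).1.x (en e n) ξ.1)
    (fun_le (by simp) (fun_le hδc hB))
  -- the Delta system
  let Z : E → Set (N ⊕ D) := fun e => Sum.inl '' (p e).1.D ∪ Sum.inr '' {x | (p e).2.f x ≠ none}
  have hZ : ∀ e, (Z e).Countable := fun e => ((p e).1.hD.image _).union ((p e).2.sm.image _)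
  obtain ⟨T3, R, hT32, hT3, hR⟩ := Pool.Agent.Helper292.SP.delta_sys hχ' hℵ hpow T2 hT2 Z
    (fun e => by
      have : #(Z e) ≤ ℵ₀ := (hZ e).le_aleph0
      exact this.trans_lt aleph0_lt_aleph_one)
  have htwo : ∀ T : Set E, ¬ #T ≤ 𝔠 → ∃ e ∈ T, ∃ e' ∈ T, e ≠ e' := by
    intro T hT
    by_contra hcon
    push Not at hcon
    apply hT
    have : T.Subsingleton := fun i hi j hj => hcon i hi j hj
    exact (this.finite.lt_aleph0).le.trans Cardinal.aleph0_le_continuum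
  have hRc : #R ≤ ℵ₀ := by
    obtain ⟨e, he, e', he', hne⟩ := htwo T3 hT3
    rw [← hR e he e' he' hne]
    exact ((hZ e).mono inter_subset_left).le_aleph0
  obtain ⟨T4, z, hT43, hT4, hz⟩ := Pool.Agent.Helper292.SP.pigeon hχ' T3 hT3
    (fun e => ((fun (y : R) (ξ : Iio δ) => Sum.elim (fun i => (p e).1.x i ξ.1) (fun _ => false) y.1),
      (fun (y : R) => Sum.elim (fun _ => none) (p e).2.f y.1)))
    (prod_le (fun_le hRc (fun_le hδc hB))
      (fun_le hRc ((Cardinal.mk_le_aleph0 (α := Option Bool)).trans hχ')))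
  obtain ⟨e, he, e', he', hne⟩ := htwo T4 hT4
  have he1 : e ∈ T1 := hT21 (hT32 (hT43 he))
  have he1' : e' ∈ T1 := hT21 (hT32 (hT43 he'))
  have hee := (hz e he).trans (hz e' he').symm
  have hvv := (hv e (hT32 (hT43 he))).trans (hv e' (hT32 (hT43 he'))).symm
  have hRR := hR e (hT43 he) e' (hT43 he') hne
  refine ⟨e, e', hne, ?_, ?_⟩
  · exact (Prod.mk.inj ((hc e he1).trans (hc e' he1').symm)).1
  obtain ⟨k, hk1, hk2⟩ := KC.exists_union (p := (p e).1) (q := (p e').1)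
    ((hδ e he1).trans (hδ e' he1').symm) (by
      intro i hi hi' ξ hξ
      rw [hδ e he1] at hξ
      have hiR : Sum.inl i ∈ R := by
        rw [← hRR]
        exact ⟨Or.inl ⟨i, hi, rfl⟩, Or.inl ⟨i, hi', rfl⟩⟩
      exact congrFun (congrFun (Prod.mk.inj hee).1 ⟨Sum.inl i, hiR⟩) ⟨ξ, hξ⟩) (by
      intro i hi
      rw [hen e] at hi
      obtain ⟨n, rfl⟩ := hi
      refine ⟨en e' n, by rw [hen e']; exact ⟨n, rfl⟩, fun ξ hξ => ?_⟩
      rw [hδ e he1] at hξ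
      exact congrFun (congrFun hvv n) ⟨ξ, hξ⟩) (by
      intro i hi
      rw [hen e'] at hi
      obtain ⟨n, rfl⟩ := hi
      refine ⟨en e n, by rw [hen e]; exact ⟨n, rfl⟩, fun ξ hξ => ?_⟩
      rw [hδ e he1] at hξ
      exact (congrFun (congrFun hvv n) ⟨ξ, hξ⟩).symm)
  obtain ⟨g, hg1, hg2, -⟩ := PF.exists_union Pool.Agent.R591.SPL.Countable_union
    Pool.Agent.R591.SPL.Countable_sub (p := (p e).2) (q := (p e').2) (by
      intro x u u' hu hu'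
      have hxR : Sum.inr x ∈ R := by
        rw [← hRR]
        exact ⟨Or.inr ⟨x, by simp [hu], rfl⟩, Or.inr ⟨x, by simp [hu'], rfl⟩⟩
      have h1 : (p e).2.f x = (p e').2.f x := congrFun (Prod.mk.inj hee).2 ⟨Sum.inr x, hxR⟩
      rw [hu, hu'] at h1
      exact Option.some.inj h1)
  exact ⟨(k, g), ⟨hk1, hg1⟩, ⟨hk2, hg2⟩⟩

/-- Every dense open set contains a predense subset of size at most the continuum. -/
theorem exists_predense {𝒟 : Set (PP N D)} (hdense : ∀ q, ∃ r ≤ q, r ∈ 𝒟) :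
    ∃ 𝒜 ⊆ 𝒟, #𝒜 ≤ 𝔠 ∧ ∀ q : PP N D, ∃ a ∈ 𝒜, ∃ r, r ≤ q ∧ r ≤ a := by
  let 𝒞 : Set (Set (PP N D)) := {𝒜 | 𝒜 ⊆ 𝒟 ∧ ∀ a ∈ 𝒜, ∀ b ∈ 𝒜, a ≠ b → ¬ ∃ r, r ≤ a ∧ r ≤ b}
  obtain ⟨𝒜, h𝒜⟩ := zorn_subset 𝒞 (by
    intro 𝒳 h1 h2
    refine ⟨⋃₀ 𝒳, ⟨sUnion_subset fun s hs => (h1 hs).1, ?_⟩, fun s hs => subset_sUnion_of_mem hs⟩
    rintro a ⟨s, hs, ha⟩ b ⟨t, ht, hb⟩ hab
    rcases h2.total hs ht with h3 | h3
    · exact (h1 ht).2 a (h3 ha) b hb hab
    · exact (h1 hs).2 a ha b (h3 hb) hab)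
  refine ⟨𝒜, h𝒜.prop.1, ?_, ?_⟩
  · by_contra hcon
    rw [not_le] at hcon
    obtain ⟨e, e', hne, -, r, hr⟩ := exists_compat hcon (C := Unit)
      ((Cardinal.mk_le_aleph0).trans Cardinal.aleph0_le_continuum) (fun _ => ())
      (fun a : 𝒜 => a.1)
    exact h𝒜.prop.2 e.1 e.2 e'.1 e'.2 (fun h => hne (Subtype.ext h)) ⟨r, hr⟩
  · intro q
    obtain ⟨r, hr, hrD⟩ := hdense q
    by_contra hcon
    push Not at hcon
    have hr𝒜 : r ∉ 𝒜 := fun h => hcon r h r hr le_rfl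
    have h3 : insert r 𝒜 ∈ 𝒞 := by
      refine ⟨insert_subset hrD h𝒜.prop.1, ?_⟩
      rintro a ha b hb hab ⟨s, hs1, hs2⟩
      rcases ha with rfl | ha
      · rcases hb with rfl | hb
        · exact hab rfl
        · exact hcon b hb s (hs1.trans hr) hs2
      · rcases hb with rfl | hb
        · exact hcon a ha s (hs2.trans hr) hs1
        · exact h𝒜.prop.2 a ha b hb hab ⟨s, hs1, hs2⟩
    exact hr𝒜 (h𝒜.le_of_ge h3 (subset_insert _ _) (mem_insert _ _))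

end Pool.Agent.Zk92.Kur
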