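import Mathlib
import Pool.Agent.Helper669.Forcing
import Pool.Agent.R591.SPL.Defs

/-!
# A combinatorial principle, and its translation into the forcing language
-/

open Pool.Agent.Helper669.Forcing
open Pool.Agent.R591.SPL (fiff SameSet)

namespace Pool.Agent.Zk92.Kur

/-- `C` is closed and unbounded in `W`. -/
def Club {W : Type} [LinearOrder W] (C : W → Prop) : Prop :=
  (∀ γ, ∃ ξ, γ < ξ ∧ C ξ) ∧
    ∀ δ, (∃ γ, γ < δ) ∧ (∀ γ, γ < δ → ∃ ξ, (γ < ξ ∧ ξ < δ) ∧ C ξ) → C δ

/-- The principle, about actual objects. `W` is a linearly ordered set (it will be `ω₁`).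
* `unc`: `W` is not countable;
* `ch`: there is a map from `W` onto the power set of `ℕ`;
* `many`: there is no map from `W` onto `N`;
* `kurepa`: there is a family of `N` many distinct subsets of `W` which has only countably many
  traces on every proper initial segment of `W`;
* `noDiamond`: for every sequence `A` which attaches to `δ : W` a sequence `A δ 0`, `A δ 1`, ... of
  subsets of `W`, there is a set `X` such that every closed unbounded set has an element `δ` at
  which `X` differs below `δ` from all `A δ n`. -/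
structure Principle (W : Type) [LinearOrder W] (N : Type) : Prop where
  unc : ∀ f : ℕ → W, ¬ Function.Surjective f
  ch : ∃ w : W → Set ℕ, Function.Surjective w
  many : ∀ g : W → N, ¬ Function.Surjective g
  kurepa : ∃ X : N → W → Prop, (∀ i j, i ≠ j → ∃ ξ, ¬ (X i ξ ↔ X j ξ)) ∧
    ∀ δ, ∃ e : ℕ → N, ∀ i, ∃ n, ∃ j, e n = j ∧ ∀ ξ, ξ < δ → (X i ξ ↔ X j ξ)
  noDiamond : ∀ A : W → ℕ → W → Prop, ∃ X : W → Prop, ∀ C : W → Prop, Club C →
    ∃ δ, C δ ∧ ∀ n, ∃ ξ, ξ < δ ∧ ¬ (X ξ ↔ A δ n ξ)

section

variable {P : Type} [Preorder P] {W : Type} [LinearOrder W]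

/-- The named subset `C` of `W` is closed and unbounded. -/
def FClub (C : W → Set P) : Set P :=
  fand (fall fun γ => fex fun ξ => fand (fground (γ < ξ)) (meets (C ξ)))
    (fall fun δ => fimp (fand (fground (∃ γ, γ < δ)) (fall fun γ => fimp (fground (γ < δ))
      (fex fun ξ => fand (fground (γ < ξ ∧ ξ < δ)) (meets (C ξ))))) (meets (C δ)))

end

/-- The translation of `Principle` into the forcing language of `P`. -/
def ForcedPrinciple (P : Type) [Preorder P] (W : Type) [LinearOrder W] (N : Type) : Set P :=
  fand (fall fun f : ℕ → W → Set P => fnot (fand (IsFun f) (IsOnto f)))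
  (fand (fex fun w : W → ℕ → Set P => fall fun x : ℕ → Set P => fex fun α : W =>
      SameSet x (w α))
  (fand (fall fun g : W → N → Set P => fnot (fand (IsFun g) (IsOnto g)))
  (fand (fex fun X : N → W → Set P => fand
      (fall fun i => fall fun j => fimp (fground (i ≠ j)) (fex fun ξ =>
        fnot (fiff (meets (X i ξ)) (meets (X j ξ)))))
      (fall fun δ => fex fun e : ℕ → N → Set P => fand (IsFun e) (fall fun i => fex fun n =>
        fex fun j => fand (meets (e n j)) (fall fun ξ => fimp (fground (ξ < δ))
          (fiff (meets (X i ξ)) (meets (X j ξ)))))))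
    (fall fun A : W → ℕ → W → Set P => fex fun X : W → Set P => fall fun C : W → Set P =>
      fimp (FClub C) (fex fun δ => fand (meets (C δ)) (fall fun n => fex fun ξ =>
        fand (fground (ξ < δ)) (fnot (fiff (meets (X ξ)) (meets (A δ n ξ))))))))))

end Pool.Agent.Zk92.Kur
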