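import Pool.Agent.Results.MP_0f79e1_lc.NoStrongUnderCH

/-!
# The principle of `Pool.Agent.Zk92.Kur.Defs` gives CH and a Kurepa family
-/

set_option autoImplicit false

namespace Pool.Agent.Zk92.Kur

open Cardinal Order Set Pool.Agent.Results.MP_0f79e1_lc.NoStrongUnderCH

theorem family_of {N : Type} (h : Principle W1 N) : ∃ 𝒜 : Set (Set W1), ℵ_ 2 ≤ #𝒜 ∧
    ∀ α : W1, ((fun S => S ∩ Iio α) '' 𝒜).Countable := by
  obtain ⟨X, hX1, hX2⟩ := h.kurepa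
  obtain ⟨i0⟩ : Nonempty N := ⟨(hX2 (Classical.arbitrary W1)).choose 0⟩
  have hinj : Function.Injective fun i : N => {ξ | X i ξ} := by
    intro i j hij
    by_contra hne
    obtain ⟨ξ, hξ⟩ := hX1 i j hne
    apply hξ
    exact iff_of_eq (congrFun hij ξ)
  refine ⟨range fun i : N => {ξ | X i ξ}, ?_, fun α => ?_⟩
  · rw [mk_range_eq _ hinj]
    have e : ℵ_ 2 = succ (ℵ₁ : Cardinal.{0}) := by
      rw [succ_aleph, one_add_one_eq_two]
    rw [e]
    apply succ_le_of_lt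
    by_contra hcon
    rw [not_lt, ← Cardinal.mk_ord_toType ℵ₁] at hcon
    haveI : Nonempty N := ⟨i0⟩
    obtain ⟨g⟩ := (Cardinal.le_def _ _).1 hcon
    exact h.many (Function.invFun g) (Function.invFun_surjective g.injective)
  · obtain ⟨e, he⟩ := hX2 α
    refine (countable_range fun n => {ξ | X (e n) ξ} ∩ Iio α).mono ?_
    rintro _ ⟨_, ⟨i, rfl⟩, rfl⟩
    obtain ⟨n, j, rfl, h3⟩ := he i
    refine ⟨n, ?_⟩
    ext ξ
    simp only [mem_inter_iff, mem_ofPred_eq, mem_Iio]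
    exact ⟨fun h => ⟨(h3 ξ h.2).2 h.1, h.2⟩, fun h => ⟨(h3 ξ h.2).1 h.1, h.2⟩⟩

/-- the principle gives CH and a Kurepa family -/
theorem ch_and_family {W : Type} [LinearOrder W] [WellFoundedLT W]
    (hW : ∀ δ : W, (Iio δ).Countable) {N : Type} (h : Principle W N) :
    (𝔠 : Cardinal.{0}) = ℵ₁ ∧ ∃ 𝒜 : Set (Set (ℵ₁ : Cardinal.{0}).ord.ToType), ℵ_ 2 ≤ #𝒜 ∧
      ∀ α : (ℵ₁ : Cardinal.{0}).ord.ToType, ((fun S => S ∩ Iio α) '' 𝒜).Countable := by
  obtain ⟨φ⟩ := exists_iso hW (card_W hW h)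
  exact ⟨(Results.MP_0f79e1_lc.NoStrongUnderCH.result.2 W hW N h).2.1, family_of (transport φ h)⟩

end Pool.Agent.Zk92.Kur
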