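import Pool.Agent.Zk92.Kur.CC

/-!
# The principle is forced: everything but the failure of diamond
-/

open Set Cardinal Pool.Agent.Helper669.Forcing
open Pool.Agent.R591.SPL (fiff SameSet PF Cn)

namespace Pool.Agent.Zk92.Kur

variable {N D I : Type}

/-- deciding a sequence of statements -/
def Dec (φ : Set (PP N D)) : Set (PP N D) := {r | r ∈ meets φ ∨ r ∈ fnot (meets φ)}

theorem down_Dec (φ : Set (PP N D)) : Down (Dec φ) := by
  rintro r (h | h) s hs
  · exact Or.inl (down_meets _ _ h _ hs)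
  · exact Or.inr (down_fnot _ _ h _ hs)

theorem dense_Dec (φ : Set (PP N D)) (q : PP N D) : ∃ r ≤ q, r ∈ Dec φ := by
  by_cases h : q ∈ fnot (meets φ)
  · exact ⟨q, le_rfl, Or.inr h⟩
  · simp only [fnot, mem_ofPred_eq, not_forall, not_not] at h
    obtain ⟨r, hr, h⟩ := h
    exact ⟨r, hr, Or.inl h⟩

/-- `ω₁` is not collapsed -/
theorem unc_forced (f : ℕ → W1 → Set (PP N D)) (q : PP N D)
    (h : q ∈ fand (IsFun f) (IsOnto f)) : False := by
  obtain ⟨r, hr, hr2⟩ := PP.exists_meet (𝒟 := fun n => {r | ∃ y, r ∈ meets (f n y)})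
    (by
      rintro n r ⟨y, hy⟩ s hs
      exact ⟨y, down_meets _ _ hy _ hs⟩) q (by
      intro n p hp
      obtain ⟨r, hr, y, hy⟩ := IsFun.total (down_IsFun _ _ h.1 _ hp) n
      exact ⟨r, hr, y, hy⟩)
  choose y hy using hr2
  obtain ⟨δ, hδ⟩ := W_bdd (range y) (countable_range y)
  obtain ⟨s, hs, n, hn⟩ := mem_fex.1 (h.2 δ) r hr
  have h3 := IsFun.unique (down_IsFun _ _ h.1 _ (hs.trans hr)) hn (down_meets _ _ (hy n) _ hs)
  have h4 := hδ (y n) ⟨n, rfl⟩
  rw [← h3] at h4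
  exact lt_irrefl _ h4

/-- the map onto the power set of `ℕ` -/
def wname : W1 → ℕ → Set (PP N ((I × W1) ⊕ (W1 × ℕ))) :=
  fun α n => {p | p.2.f (Sum.inr (α, n)) = some true}

/-- CH holds -/
theorem ch_forced (x : ℕ → Set (PP N ((I × W1) ⊕ (W1 × ℕ)))) (p : PP N ((I × W1) ⊕ (W1 × ℕ))) :
    p ∈ fex fun α : W1 => SameSet x (wname α) := by
  classical
  rw [mem_fex]
  intro q _
  obtain ⟨r, hr, hr2⟩ := PP.exists_meet (𝒟 := fun n => Dec (x n)) (fun n => down_Dec _) q
    (fun n q _ => dense_Dec _ q)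
  obtain ⟨α, hα⟩ := W_bdd (Sum.elim (fun y => y.2) (fun y => y.1) '' {x | r.2.f x ≠ none})
    (r.2.sm.image _)
  have hnone : ∀ n, r.2.f (Sum.inr (α, n)) = none := by
    intro n
    by_contra h
    exact lt_irrefl _ (hα α ⟨Sum.inr (α, n), h, rfl⟩)
  let s : PP N ((I × W1) ⊕ (W1 × ℕ)) := (r.1, ⟨Sum.elim (fun y => r.2.f (Sum.inl y))
    (fun y => if y.1 = α then some (decide (r ∈ meets (x y.2))) else r.2.f (Sum.inr y)), by
      refine (r.2.sm.union ((countable_range fun n : ℕ => Sum.inr (α, n)))).mono ?_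
      rintro (y | ⟨β, n⟩) hy
      · exact Or.inl hy
      · by_cases hβ : β = α
        · subst hβ; exact Or.inr ⟨n, rfl⟩
        · left
          simpa [hβ] using hy⟩)
  have hsr : s ≤ r := by
    refine ⟨le_rfl, ?_⟩
    rintro (y | ⟨β, n⟩) v hv
    · exact hv
    · by_cases hβ : β = α
      · subst hβ; rw [hnone n] at hv; cases hv
      · simpa [s, hβ] using hv
  have hs : ∀ n, s.2.f (Sum.inr (α, n)) = some (decide (r ∈ meets (x n))) := fun n => by simp [s]
  refine ⟨s, hsr.trans hr, α, fun n => ⟨?_, ?_⟩⟩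
  · rw [mem_fimp]
    intro t ht htx
    have h1 : r ∈ meets (x n) := (hr2 n).resolve_right fun h => h t (ht.trans hsr) htx
    refine ⟨t, le_rfl, down_meets _ _ (meets_of_mem ?_) _ ht⟩
    show s.2.f (Sum.inr (α, n)) = some true
    rw [hs n]; simp [h1]
  · rw [mem_fimp]
    intro t ht htx
    refine ⟨t, le_rfl, ?_⟩
    by_contra hcon
    have h1 : r ∉ meets (x n) := fun h => hcon (down_meets _ _ h _ (ht.trans hsr))
    obtain ⟨u, hu, v, hv, huv⟩ := htx t le_rfl
    have h2 := huv.2 _ _ hv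
    have h3 := (hu.trans ht).2 _ _ (hs n)
    rw [h2] at h3
    simp [h1] at h3

/-- many branches -/
theorem many_forced (hN : 𝔠 < #N) (g : W1 → N → Set (PP N D)) (q : PP N D)
    (h : q ∈ fand (IsFun g) (IsOnto g)) : False := by
  have h1 : ∀ i : N, ∃ p ≤ q, ∃ α, p ∈ meets (g α i) := by
    intro i
    obtain ⟨p, hp, α, hα⟩ := mem_fex.1 (h.2 i) q le_rfl
    exact ⟨p, hp, α, hα⟩
  choose p hp α hα using h1
  obtain ⟨i, j, hij, h2, r, hr1, hr2⟩ := exists_compat hN W_le α p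
  have h3 := down_meets _ _ (hα i) _ hr1
  have h4 := down_meets _ _ (hα j) _ hr2
  rw [← h2] at h4
  exact hij (IsFun.unique (down_IsFun _ _ h.1 _ (hr1.trans (hp i))) h3 h4)

/-- the Kurepa family -/
def kname : N → W1 → Set (PP N D) :=
  fun i ξ => {p | i ∈ p.1.D ∧ ξ < p.1.δ ∧ p.1.x i ξ = true}

theorem meets_kname {i : N} {ξ : W1} {k : KC N} (hi : i ∈ k.D) (hξ : ξ < k.δ) {s : PP N D}
    (hs : s.1 ≤ k) : s ∈ meets (kname i ξ) ↔ k.x i ξ = true := by
  constructor
  · intro h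
    obtain ⟨r, hr, v, ⟨h1, h2, h3⟩, hv⟩ := h s le_rfl
    have h4 := hv.1.2.2.1 i h1 ξ h2
    have h5 := (hr.1.trans hs).2.2.1 i hi ξ hξ
    rw [← h5, h4, h3]
  · intro h
    refine meets_of_mem ⟨hs.2.1 hi, hξ.trans_le hs.1, ?_⟩
    rw [hs.2.2.1 i hi ξ hξ, h]

theorem kurepa_forced (p : PP N D) : p ∈ fex fun X : N → W1 → Set (PP N D) => fand
      (fall fun i => fall fun j => fimp (fground (i ≠ j)) (fex fun ξ =>
        fnot (fiff (meets (X i ξ)) (meets (X j ξ)))))
      (fall fun δ => fex fun e : ℕ → N → Set (PP N D) => fand (IsFun e) (fall fun i =>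
        fex fun n => fex fun j => fand (meets (e n j)) (fall fun ξ => fimp (fground (ξ < δ))
          (fiff (meets (X i ξ)) (meets (X j ξ)))))) := by
  have hdown : ∀ X : N → W1 → Set (PP N D), Down (fand
      (fall fun i => fall fun j => fimp (fground (i ≠ j)) (fex fun ξ =>
        fnot (fiff (meets (X i ξ)) (meets (X j ξ)))))
      (fall fun δ => fex fun e : ℕ → N → Set (PP N D) => fand (IsFun e) (fall fun i =>
        fex fun n => fex fun j => fand (meets (e n j)) (fall fun ξ => fimp (fground (ξ < δ))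
          (fiff (meets (X i ξ)) (meets (X j ξ))))))) := fun X =>
    down_fand (down_fall fun _ => down_fall fun _ => down_fimp _ _)
      (down_fall fun _ => down_fex _)
  refine mem_fex_of_mem kname (hdown _) ⟨?_, ?_⟩
  · intro i j
    rw [mem_fimp]
    intro q _ hij
    refine ⟨q, le_rfl, ?_⟩
    rw [mem_fex]
    intro q' _
    obtain ⟨k1, hk1, hi1, -⟩ := q'.1.exists_index i
    obtain ⟨k2, hk2, hj2, -⟩ := k1.exists_index j
    obtain ⟨k3, hk3, ξ, hξ, h1, h2, h3, h4⟩ := k2.exists_sep (hk2.2.1 hi1) hj2 hij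
    refine ⟨(k3, q'.2), ⟨hk3.trans (hk2.trans hk1), le_rfl⟩, ξ, ?_⟩
    intro r hr hrr
    have h5 : r ∈ meets (kname i ξ) := (meets_kname h3 hξ hr.1).2 h1
    obtain ⟨s, hs, hs2⟩ := mem_fimp.1 hrr.1 r le_rfl h5
    have h6 := (meets_kname h4 hξ (hs.1.trans hr.1)).1 hs2
    rw [h2] at h6
    cases h6
  · intro δ
    rw [mem_fex]
    intro q _
    obtain ⟨k, hk, hkδ, hkD⟩ := q.1.exists_height (le_max_left q.1.δ δ)
    obtain ⟨en, hen⟩ := k.hD.exists_eq_range k.hne
    refine ⟨(k, q.2), ⟨hk, le_rfl⟩, fun n j => {_r | en n = j}, ?_, ?_⟩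
    · refine ⟨fun n => ?_, fun n y y' => ?_⟩
      · refine mem_fex_of_mem (en n) (down_meets _) (meets_of_mem rfl)
      · rw [mem_fimp]
        rintro r _ ⟨h1, h2⟩
        obtain ⟨_, _, _, h3, _⟩ := h1 r le_rfl
        obtain ⟨_, _, _, h4, _⟩ := h2 r le_rfl
        have h3' : en n = y := h3
        have h4' : en n = y' := h4
        exact ⟨r, le_rfl, h3'.symm.trans h4'⟩
    · intro i
      rw [mem_fex]
      intro r hr
      obtain ⟨k', hk', hi, hkδ'⟩ := r.1.exists_index i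
      have hkk : k' ≤ k := hk'.trans hr.1
      obtain ⟨j, hj, hj2⟩ := hkk.2.2.2 i hi
      have hj' := hj
      rw [hen] at hj'
      obtain ⟨n, rfl⟩ := hj'
      refine ⟨(k', r.2), ⟨hk', le_rfl⟩, n, ?_⟩
      refine mem_fex_of_mem (en n) (down_fand (down_meets _) (down_fall fun _ => down_fimp _ _))
        ⟨meets_of_mem rfl, ?_⟩
      intro ξ
      rw [mem_fimp]
      intro s hs hξ
      have hξ' : ξ < δ := hξ
      have hξk : ξ < k.δ := by rw [hkδ]; exact hξ'.trans_le (le_max_right _ _)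
      have hξk' : ξ < k'.δ := hξk.trans_le hkk.1
      refine ⟨s, le_rfl, ?_, ?_⟩
      · rw [mem_fimp]
        intro t ht htt
        have h1 := (meets_kname hi hξk' (ht.1.trans hs.1)).1 htt
        refine ⟨t, le_rfl, (meets_kname (hkk.2.1 hj) hξk' (ht.1.trans hs.1)).2 ?_⟩
        rw [hkk.2.2.1 _ hj ξ hξk, ← hj2 ξ hξk, h1]
      · rw [mem_fimp]
        intro t ht htt
        have h1 := (meets_kname (hkk.2.1 hj) hξk' (ht.1.trans hs.1)).1 htt
        refine ⟨t, le_rfl, (meets_kname hi hξk' (ht.1.trans hs.1)).2 ?_⟩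
        rw [hj2 ξ hξk, ← hkk.2.2.1 _ hj ξ hξk, h1]

end Pool.Agent.Zk92.Kur
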