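import Pool.Agent.Zk92.Kur.Forced

/-!
# The failure of diamond-star is forced
-/

open Set Cardinal Pool.Agent.Helper669.Forcing
open Pool.Agent.R591.SPL (fiff SameSet PF Cn)

namespace Pool.Agent.Zk92.Kur

variable {N I : Type}

/-- the domain of the partial functions -/
abbrev DD (I : Type) : Type := (I × W1) ⊕ (W1 × ℕ)

section mix

variable (i₀ : I)

open Classical in
/-- replacing the coordinate `i₀` of `a` by `b` -/
noncomputable def mix (a : Cn (DD I)) (b : Cn W1) : Cn (DD I) :=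
  ⟨Sum.elim (fun y => if y.1 = i₀ then b.f y.2 else a.f (Sum.inl y)) (fun y => a.f (Sum.inr y)), by
    refine (a.sm.union (b.sm.image fun ξ => (Sum.inl (i₀, ξ) : DD I))).mono ?_
    rintro (⟨i, ξ⟩ | y) hy
    · by_cases hi : i = i₀
      · subst hi
        right
        exact ⟨ξ, by simpa using hy, rfl⟩
      · left
        simpa [hi] using hy
    · exact Or.inl hy⟩

/-- the coordinate `i₀` of `a` -/
def sec (a : Cn (DD I)) : Cn W1 :=
  ⟨fun ξ => a.f (Sum.inl (i₀, ξ)), by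
    exact a.sm.preimage (f := fun ξ : W1 => (Sum.inl (i₀, ξ) : DD I))
      (fun a b h => by simpa using h)⟩

/-- the empty function -/
def emp : Cn W1 := ⟨fun _ => none, by simp⟩

variable {i₀}

theorem mix_at (a : Cn (DD I)) (b : Cn W1) (ξ : W1) :
    (mix i₀ a b).f (Sum.inl (i₀, ξ)) = b.f ξ := by
  simp [mix]

theorem mix_ne (a : Cn (DD I)) (b : Cn W1) {x : DD I} (hx : ∀ ξ, x ≠ Sum.inl (i₀, ξ)) :
    (mix i₀ a b).f x = a.f x := by
  rcases x with ⟨i, ξ⟩ | y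
  · have hi : i ≠ i₀ := by
      rintro rfl
      exact hx ξ rfl
    simp [mix, hi]
  · rfl

theorem cases_i (x : DD I) : (∃ ξ, x = Sum.inl (i₀, ξ)) ∨ ∀ ξ, x ≠ Sum.inl (i₀, ξ) := by
  by_cases h : ∃ ξ, x = Sum.inl (i₀, ξ)
  · exact Or.inl h
  · push Not at h
    exact Or.inr h

theorem mix_sec_le (a : Cn (DD I)) : mix i₀ a (sec i₀ a) ≤ a := by
  intro x v hv
  rcases cases_i (i₀ := i₀) x with ⟨ξ, rfl⟩ | hx
  · rw [mix_at]; exact hv
  · rw [mix_ne _ _ hx]; exact hv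

theorem le_mix_sec (a : Cn (DD I)) : a ≤ mix i₀ a (sec i₀ a) := by
  intro x v hv
  rcases cases_i (i₀ := i₀) x with ⟨ξ, rfl⟩ | hx
  · rw [mix_at] at hv; exact hv
  · rw [mix_ne _ _ hx] at hv; exact hv

theorem mix_le_emp (a : Cn (DD I)) (b : Cn W1) : mix i₀ a b ≤ mix i₀ a emp := by
  intro x v hv
  rcases cases_i (i₀ := i₀) x with ⟨ξ, rfl⟩ | hx
  · rw [mix_at] at hv; simp [emp] at hv
  · rw [mix_ne _ _ hx] at hv ⊢; exact hv

theorem emp_mono {a a' : Cn (DD I)} {b b' : Cn W1} (h : mix i₀ a' b' ≤ mix i₀ a b) :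
    mix i₀ a' emp ≤ mix i₀ a emp := by
  intro x v hv
  rcases cases_i (i₀ := i₀) x with ⟨ξ, rfl⟩ | hx
  · rw [mix_at] at hv; simp [emp] at hv
  · have h1 := h x v (by rw [mix_ne _ _ hx] at hv ⊢; exact hv)
    rw [mix_ne _ _ hx] at h1 ⊢
    exact h1

theorem mix_mono_right {a : Cn (DD I)} {b b' : Cn W1} (h : b' ≤ b) :
    mix i₀ a b' ≤ mix i₀ a b := by
  intro x v hv
  rcases cases_i (i₀ := i₀) x with ⟨ξ, rfl⟩ | hx
  · rw [mix_at] at hv ⊢; exact h ξ v hv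
  · rw [mix_ne _ _ hx] at hv ⊢; exact hv

theorem mix_le_of {a a' : Cn (DD I)} {b b' : Cn W1} (h1 : mix i₀ a' emp ≤ mix i₀ a emp)
    (h2 : b' ≤ b) : mix i₀ a' b' ≤ mix i₀ a b := by
  intro x v hv
  rcases cases_i (i₀ := i₀) x with ⟨ξ, rfl⟩ | hx
  · rw [mix_at] at hv ⊢; exact h2 ξ v hv
  · have h3 := h1 x v (by rw [mix_ne _ _ hx] at hv ⊢; exact hv)
    rw [mix_ne _ _ hx] at h3 ⊢; exact h3

theorem right_of_mix_le {a a' : Cn (DD I)} {b b' : Cn W1} (h : mix i₀ a' b' ≤ mix i₀ a b) :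
    b' ≤ b := by
  intro ξ v hv
  have h1 := h (Sum.inl (i₀, ξ)) v (by rw [mix_at]; exact hv)
  rwa [mix_at] at h1

/-- forgetting the coordinate `i₀` -/
theorem emp_le_of_le {a a' : Cn (DD I)} (h : a' ≤ a) : mix i₀ a' emp ≤ mix i₀ a emp := by
  intro x v hv
  rcases cases_i (i₀ := i₀) x with ⟨ξ, rfl⟩ | hx
  · rw [mix_at] at hv; simp [emp] at hv
  · rw [mix_ne _ _ hx] at hv ⊢; exact h x v hv

theorem le_emp (a : Cn (DD I)) : a ≤ mix i₀ a emp := by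
  intro x v hv
  rcases cases_i (i₀ := i₀) x with ⟨ξ, rfl⟩ | hx
  · rw [mix_at] at hv; simp [emp] at hv
  · rw [mix_ne _ _ hx] at hv; exact hv

end mix

/-- there is a coordinate which is not used by given predense sets -/
theorem exists_coord (hI : 𝔠 < #I) {S : Type} (hS : #S ≤ 𝔠) (𝒜 : S → Set (PP N (DD I)))
    (h𝒜 : ∀ s, #(𝒜 s) ≤ 𝔠) :
    ∃ i₀ : I, ∀ s, ∀ u ∈ 𝒜 s, ∀ ξ, u.2.f (Sum.inl (i₀, ξ)) = none := by
  have hχ' : ℵ₀ ≤ 𝔠 := Cardinal.aleph0_le_continuum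
  let J : Set I := ⋃ s : S, ⋃ u : 𝒜 s, Prod.fst '' {y : I × W1 | u.1.2.f (Sum.inl y) ≠ none}
  have hJ : #J ≤ 𝔠 := by
    refine Pool.Agent.Helper292.SP.DS.small_iUnion hχ' hS _ fun s => ?_
    refine Pool.Agent.Helper292.SP.DS.small_iUnion hχ' (h𝒜 s) _ fun u => ?_
    have h1 : {y : I × W1 | u.1.2.f (Sum.inl y) ≠ none}.Countable :=
      u.1.2.sm.preimage (f := fun y : I × W1 => (Sum.inl y : DD I)) Sum.inl_injective
    exact (h1.image _).le_aleph0.trans hχ'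
  obtain ⟨i₀, hi₀⟩ : ∃ i₀, i₀ ∉ J := by
    by_contra hcon
    push Not at hcon
    have : J = Set.univ := eq_univ_of_forall hcon
    rw [this, mk_univ] at hJ
    exact absurd hI (not_lt.2 hJ)
  refine ⟨i₀, fun s u hu ξ => ?_⟩
  by_contra h
  exact hi₀ (mem_iUnion.2 ⟨s, mem_iUnion.2 ⟨⟨u, hu⟩, ⟨(i₀, ξ), h, rfl⟩⟩⟩)

/-- statements which are decided independently of the coordinate `i₀` -/
def IDec (i₀ : I) (φ : Set (PP N (DD I))) : Set (PP N (DD I)) :=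
  {r | (r.1, mix i₀ r.2 emp) ∈ Dec φ}

theorem down_IDec (i₀ : I) (φ : Set (PP N (DD I))) : Down (IDec i₀ φ) :=
  fun _ hr _ hs => down_Dec φ _ hr _ ⟨hs.1, emp_le_of_le hs.2⟩

theorem dense_IDec {i₀ : I} {φ : Set (PP N (DD I))} {𝒜 : Set (PP N (DD I))} (h1 : 𝒜 ⊆ Dec φ)
    (h2 : ∀ q : PP N (DD I), ∃ a ∈ 𝒜, ∃ r, r ≤ q ∧ r ≤ a)
    (h3 : ∀ u ∈ 𝒜, ∀ ξ, u.2.f (Sum.inl (i₀, ξ)) = none) (q : PP N (DD I)) :
    ∃ r ≤ q, r ∈ IDec i₀ φ := by
  obtain ⟨a, ha, r, hr1, hr2⟩ := h2 (q.1, mix i₀ q.2 emp)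
  refine ⟨(r.1, mix i₀ r.2 (sec i₀ q.2)), ⟨hr1.1, ?_⟩, ?_⟩
  · refine le_trans (mix_le_of (b := sec i₀ q.2) ?_ le_rfl) (mix_sec_le q.2)
    intro x v hv
    rcases cases_i (i₀ := i₀) x with ⟨ξ, rfl⟩ | hx
    · rw [mix_at] at hv; simp [emp] at hv
    · have h4 := hr1.2 x v hv
      rw [mix_ne _ _ hx]; exact h4
  · refine down_Dec φ a (h1 ha) _ ⟨hr2.1, ?_⟩
    intro x v hv
    have h4 := hr2.2 x v hv
    rcases cases_i (i₀ := i₀) x with ⟨ξ, rfl⟩ | hx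
    · rw [h3 a ha ξ] at hv; cases hv
    · show (mix i₀ (mix i₀ r.2 (sec i₀ q.2)) emp).f x = some v
      rw [mix_ne _ _ hx, mix_ne _ _ hx]; exact h4

/-- a finite piece of a tree of conditions -/
structure St (N I : Type) where
  k : KC N
  a : Cn (DD I)
  b : List Bool → Cn W1

/-- the conditions of the tree -/
noncomputable def St.cond (i₀ : I) (st : St N I) (s : List Bool) : PP N (DD I) :=
  (st.k, mix i₀ st.a (st.b s))

theorem finite_step {i₀ : I} {𝒟 : Set (PP N (DD I))} (hdown : Down 𝒟) (F : Finset (List Bool))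
    (st : St N I) (hd : ∀ s ∈ F, ∀ q ≤ st.cond i₀ s, ∃ r ≤ q, r ∈ 𝒟) :
    ∃ st' : St N I, (∀ t, st'.cond i₀ t ≤ st.cond i₀ t) ∧ ∀ s ∈ F, st'.cond i₀ s ∈ 𝒟 := by
  classical
  induction F using Finset.induction_on with
  | empty => exact ⟨st, fun _ => le_rfl, by simp⟩
  | insert s F _ ih =>
    obtain ⟨st1, h1, h2⟩ := ih fun s hs => hd s (Finset.mem_insert_of_mem hs)
    obtain ⟨r, hr, hrD⟩ := hd s (Finset.mem_insert_self _ _) _ (h1 s)
    have hr2 : r.2 ≤ mix i₀ st1.a (st1.b s) := hr.2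
    have hemp : mix i₀ r.2 emp ≤ mix i₀ st1.a emp :=
      (emp_le_of_le hr2).trans (by
        intro x v hv
        rcases cases_i (i₀ := i₀) x with ⟨ξ, rfl⟩ | hx
        · rw [mix_at] at hv; simp [emp] at hv
        · rw [mix_ne _ _ hx, mix_ne _ _ hx]
          rwa [mix_ne _ _ hx] at hv)
    have hle : ∀ t, (⟨r.1, r.2, Function.update st1.b s (sec i₀ r.2)⟩ : St N I).cond i₀ t ≤
        st1.cond i₀ t := by
      intro t
      refine ⟨hr.1, mix_le_of hemp ?_⟩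
      by_cases ht : t = s
      · subst ht
        show Function.update st1.b t (sec i₀ r.2) t ≤ st1.b t
        rw [Function.update_self]
        intro ξ v hv
        exact hr.2 (Sum.inl (i₀, ξ)) v (by
          show (mix i₀ st1.a (st1.b t)).f _ = _
          rw [mix_at]; exact hv)
      · show Function.update st1.b s (sec i₀ r.2) t ≤ st1.b t
        rw [Function.update_of_ne ht]
    refine ⟨⟨r.1, r.2, Function.update st1.b s (sec i₀ r.2)⟩, fun t => (hle t).trans (h1 t), ?_⟩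
    intro t ht
    by_cases hts : t = s
    · subst hts
      refine hdown r hrD _ ⟨le_rfl, ?_⟩
      show mix i₀ r.2 (Function.update st1.b t (sec i₀ r.2) t) ≤ r.2
      rw [Function.update_self]
      exact mix_sec_le _
    · exact hdown _ (h2 t ((Finset.mem_insert.1 ht).resolve_left hts)) _ (hle t)

theorem level_step {i₀ : I} {C : W1 → Set (PP N (DD I))} {q₁ : PP N (DD I)} (hC : q₁ ∈ FClub C)
    (n : ℕ) (z : St N I × W1) (hz : ∀ s, z.1.cond i₀ s ≤ q₁) :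
    ∃ (z' : St N I × W1) (η : W1), (z.2 < η ∧ η < z'.2) ∧ (∀ s, z'.1.cond i₀ s ≤ q₁) ∧
      (∀ s ε, z'.1.cond i₀ (s ++ [ε]) ≤ z.1.cond i₀ s) ∧
      (∀ s ε, (z'.1.b (s ++ [ε])).f η = some ε) ∧
      (∀ s ε, s.length = n → ∃ γ, (η < γ ∧ γ < z'.2) ∧
        z'.1.cond i₀ (s ++ [ε]) ∈ meets (C γ)) := by
  classical
  obtain ⟨η, hη⟩ := W_bdd (insert z.2 (⋃ s : List Bool, {ξ | (z.1.b s).f ξ ≠ none}))
    ((countable_iUnion fun s => (z.1.b s).sm).insert _)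
  have hη1 : z.2 < η := hη _ (mem_insert _ _)
  have hη2 : ∀ s, (z.1.b s).f η = none := by
    intro s
    by_contra h
    exact lt_irrefl _ (hη η (mem_insert_of_mem _ (mem_iUnion.2 ⟨s, h⟩)))
  let st1 : St N I := ⟨z.1.k, z.1.a, fun s' => ⟨fun ξ => if ξ = η then some (s'.getLastD false)
    else (z.1.b s'.dropLast).f ξ, by
      refine ((z.1.b s'.dropLast).sm.insert η).mono ?_
      intro ξ hξ
      by_cases h : ξ = η
      · exact Or.inl h
      · right; simpa [h] using hξ⟩⟩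
  have hst1 : ∀ s', st1.cond i₀ s' ≤ z.1.cond i₀ s'.dropLast := by
    intro s'
    refine ⟨le_rfl, mix_mono_right ?_⟩
    intro ξ v hv
    have hne : ξ ≠ η := by
      rintro rfl
      rw [hη2] at hv; cases hv
    show (if ξ = η then some (s'.getLastD false) else (z.1.b s'.dropLast).f ξ) = some v
    rw [if_neg hne]; exact hv
  have hFfin : {s : List Bool | s.length = n + 1}.Finite := List.finite_length_eq Bool (n + 1)
  obtain ⟨st', h1, h2⟩ := finite_step (i₀ := i₀) (𝒟 := {r | ∃ γ, η < γ ∧ r ∈ meets (C γ)}) (by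
      rintro r ⟨γ, hγ, hr⟩ s hs
      exact ⟨γ, hγ, down_meets _ _ hr _ hs⟩) hFfin.toFinset st1 (by
      intro s' _ q hq
      have hq1 : q ≤ q₁ := hq.trans ((hst1 s').trans (hz _))
      obtain ⟨r, hr, γ, hγ⟩ := mem_fex.1 (hC.1 η) q hq1
      exact ⟨r, hr, γ, hγ.1, hγ.2⟩)
  choose! γ hγ using h2
  obtain ⟨δ', hδ'⟩ := W_bdd (insert η (range γ)) ((countable_range γ).insert _)
  refine ⟨(st', δ'), η, ⟨hη1, hδ' _ (mem_insert _ _)⟩, fun s => (h1 s).trans ((hst1 s).trans (hz _)),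
    ?_, ?_, ?_⟩
  · intro s ε
    have h3 := (h1 (s ++ [ε])).trans (hst1 (s ++ [ε]))
    rwa [List.dropLast_concat] at h3
  · intro s ε
    have h3 := (h1 (s ++ [ε])).2 (Sum.inl (i₀, η)) ε (by
      show (mix i₀ st1.a (st1.b (s ++ [ε]))).f _ = _
      rw [mix_at]
      show (if η = η then some ((s ++ [ε]).getLastD false) else _) = _
      simp)
    have h4 : (mix i₀ st'.a (st'.b (s ++ [ε]))).f (Sum.inl (i₀, η)) = some ε := h3
    rwa [mix_at] at h4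
  · intro s ε hs
    have hmem : s ++ [ε] ∈ hFfin.toFinset := by simp [hs]
    obtain ⟨h3, h4⟩ := hγ _ hmem
    exact ⟨γ (s ++ [ε]), ⟨h3, hδ' _ (mem_insert_of_mem _ ⟨_, rfl⟩)⟩, h4⟩

/-- the failure of diamond-star is forced -/
theorem noDiamond_forced (hI : 𝔠 < #I) (A : W1 → ℕ → W1 → Set (PP N (DD I)))
    (p : PP N (DD I)) :
    p ∈ fex fun X : W1 → Set (PP N (DD I)) => fall fun C : W1 → Set (PP N (DD I)) =>
      fimp (FClub C) (fex fun δ => fand (meets (C δ)) (fall fun n => fex fun ξ =>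
        fand (fground (ξ < δ)) (fnot (fiff (meets (X ξ)) (meets (A δ n ξ)))))) := by
  classical
  have hpre : ∀ s : W1 × ℕ × W1, ∃ 𝒜 ⊆ Dec (A s.1 s.2.1 s.2.2), #𝒜 ≤ 𝔠 ∧
      ∀ q : PP N (DD I), ∃ a ∈ 𝒜, ∃ r, r ≤ q ∧ r ≤ a := fun s =>
    exists_predense fun q => dense_Dec _ q
  choose 𝒜 h𝒜1 h𝒜2 h𝒜3 using hpre
  obtain ⟨i₀, hi₀⟩ := exists_coord hI (prod_le W_le (prod_le
    ((Cardinal.mk_le_aleph0).trans Cardinal.aleph0_le_continuum) W_le)) 𝒜 h𝒜2
  refine mem_fex_of_mem (fun ξ => {p | p.2.f (Sum.inl (i₀, ξ)) = some true})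
    (down_fall fun _ => down_fimp _ _) fun C => ?_
  rw [mem_fimp]
  intro q₁ _ hC
  -- the tree
  let Z : Type := {z : St N I × W1 // ∀ s, z.1.cond i₀ s ≤ q₁}
  choose nx η hη1 hη2 hη3 hη4 hη5 using fun (n : ℕ) (z : Z) => level_step hC n z.1 z.2
  let z0 : Z := ⟨(⟨q₁.1, q₁.2, fun _ => sec i₀ q₁.2⟩, Classical.arbitrary W1),
    fun s => ⟨le_rfl, mix_sec_le _⟩⟩
  let z : ℕ → Z := fun n => Nat.rec z0 (fun n z => ⟨nx n z, hη2 n z⟩) n
  have hz : ∀ n, (z (n + 1)).1 = nx n (z n) := fun n => rfl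
  let e : ℕ → W1 := fun n => η n (z n)
  have he1 : ∀ n, (z n).1.2 < e n ∧ e n < (z (n + 1)).1.2 := fun n => by
    rw [hz]; exact hη1 n (z n)
  have he2 : ∀ n s ε, (z (n + 1)).1.1.cond i₀ (s ++ [ε]) ≤ (z n).1.1.cond i₀ s := fun n s ε => by
    rw [hz]; exact hη3 n (z n) s ε
  have he3 : ∀ n s ε, ((z (n + 1)).1.1.b (s ++ [ε])).f (e n) = some ε := fun n s ε => by
    rw [hz]; exact hη4 n (z n) s ε
  have he4 : ∀ n s ε, s.length = n → ∃ γ, (e n < γ ∧ γ < (z (n + 1)).1.2) ∧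
      (z (n + 1)).1.1.cond i₀ (s ++ [ε]) ∈ meets (C γ) := fun n s ε hs => by
    rw [hz]; exact hη5 n (z n) s ε hs
  obtain ⟨δ, hδ1, hδ2⟩ := W_sup e
  have helt : ∀ n, e n < δ := fun n => ((he1 n).2.trans (he1 (n + 1)).1).trans_le (hδ1 (n + 1))
  -- the part outside of the coordinate
  obtain ⟨cω, hcω⟩ := PP.exists_inf (fun n => ((z n).1.1.k, mix i₀ (z n).1.1.a emp)) (by
    intro n
    have h1 := he2 n [] true
    exact ⟨h1.1, emp_mono h1.2⟩)
  obtain ⟨r, hr, hrD⟩ := PP.exists_meet (𝒟 := fun m => IDec i₀ (A δ m (e m)))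
    (fun m => down_IDec _ _) cω (fun m q _ => dense_IDec (h𝒜1 (δ, m, e m)) (h𝒜3 (δ, m, e m))
      (fun u hu ξ => hi₀ (δ, m, e m) u hu ξ) q)
  -- the branch
  let r0 : PP N (DD I) := (r.1, mix i₀ r.2 emp)
  let x : ℕ → Bool := fun m => decide (r0 ∉ meets (A δ m (e m)))
  let s : ℕ → List Bool := fun n => (List.range n).map x
  have hs1 : ∀ n, s (n + 1) = s n ++ [x n] := fun n => by simp [s, List.range_succ]
  have hs2 : ∀ n, (s n).length = n := fun n => by simp [s]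
  obtain ⟨b, hb⟩ := R591.SPL.exists_inf (fun n => (z n).1.1.b (s n)) (by
    intro n
    rw [hs1]
    exact right_of_mix_le (he2 n (s n) (x n)).2)
  let R : PP N (DD I) := (r.1, mix i₀ r.2 b)
  have hR : ∀ n, R ≤ (z n).1.1.cond i₀ (s n) := by
    intro n
    refine ⟨(hr.trans (hcω n)).1, mix_le_of ?_ (hb n)⟩
    have h1 : r.2 ≤ mix i₀ (z n).1.1.a emp := (hr.trans (hcω n)).2
    intro y v hv
    rcases cases_i (i₀ := i₀) y with ⟨ξ, rfl⟩ | hy
    · rw [mix_at] at hv; simp [emp] at hv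
    · rw [mix_ne _ _ hy]
      exact h1 y v hv
  have hRr0 : R ≤ r0 := ⟨le_rfl, mix_le_emp _ _⟩
  have hRq : R ≤ q₁ := (hR 0).trans ((z 0).2 _)
  have hRx : ∀ n, R.2.f (Sum.inl (i₀, e n)) = some (x n) := by
    intro n
    have h1 := he3 n (s n) (x n)
    rw [← hs1] at h1
    show (mix i₀ r.2 b).f _ = _
    rw [mix_at]
    exact hb (n + 1) _ _ h1
  -- `δ` is in the club
  obtain ⟨R', hR', hR'C⟩ := mem_fimp.1 (hC.2 δ) R hRq (by
    refine ⟨⟨e 0, helt 0⟩, fun γ => ?_⟩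
    rw [mem_fimp]
    intro t ht hγ
    obtain ⟨n, hn⟩ := hδ2 γ hγ
    obtain ⟨γ', hγ', hm⟩ := he4 n (s n) (x n) (hs2 n)
    rw [← hs1] at hm
    refine ⟨t, le_rfl, mem_fex_of_mem γ' (down_fand (down_fground _) (down_meets _)) ⟨?_, ?_⟩⟩
    · exact ⟨hn.trans hγ'.1, (hγ'.2.trans (he1 (n + 1)).1).trans (helt (n + 1))⟩
    · exact down_meets _ _ hm _ (ht.trans (hR (n + 1))))
  refine ⟨R', hR'.trans hRq, mem_fex_of_mem δ (down_fand (down_meets _)
    (down_fall fun _ => down_fex _)) ⟨hR'C, fun m => ?_⟩⟩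
  refine mem_fex_of_mem (e m) (down_fand (down_fground _) (down_fnot _)) ⟨helt m, ?_⟩
  intro t ht htt
  by_cases hcase : r0 ∈ meets (A δ m (e m))
  · have hx : x m = false := by simp [x, hcase]
    obtain ⟨u, hu, hu2⟩ := mem_fimp.1 htt.2 t le_rfl
      (down_meets _ _ hcase _ (ht.trans (hR'.trans hRr0)))
    obtain ⟨v, hv, w, hw, hvw⟩ := hu2 u le_rfl
    have h1 := hvw.2 _ _ hw
    have h2 := (hv.trans (hu.trans (ht.trans hR'))).2 _ _ (hRx m)
    rw [h1, hx] at h2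
    simp at h2
  · have hx : x m = true := by simp [x, hcase]
    have h1 : r0 ∈ fnot (meets (A δ m (e m))) := (hrD m).resolve_left hcase
    obtain ⟨u, hu, hu2⟩ := mem_fimp.1 htt.1 t le_rfl (meets_of_mem (by
      show t.2.f (Sum.inl (i₀, e m)) = some true
      have h2 := (ht.trans hR').2 _ _ (hRx m)
      rw [h2, hx]))
    exact h1 u (hu.trans (ht.trans (hR'.trans hRr0))) hu2

/-- The principle is forced. -/
theorem exists_forcing : ∃ (P : Type) (_ : Preorder P) (N : Type),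
    Nonempty P ∧ ∀ p : P, p ∈ ForcedPrinciple P W1 N := by
  let Θ : Type := Set (Set ℕ)
  have hΘ : 𝔠 < #Θ := by
    rw [Cardinal.mk_set, Cardinal.mk_set, Cardinal.mk_nat, Cardinal.two_power_aleph0]
    exact Cardinal.cantor _
  refine ⟨PP Θ (DD Θ), inferInstance, Θ, ⟨(⟨Classical.arbitrary W1, {∅}, fun _ _ => false,
    countable_singleton _, singleton_nonempty _⟩, ⟨fun _ => none, by simp⟩)⟩, fun p =>
    ⟨?_, ?_, ?_, kurepa_forced p, ?_⟩⟩
  · intro f q _ h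
    exact unc_forced f q h
  · exact mem_fex_of_mem wname (down_fall fun _ => down_fex _) fun x => ch_forced x p
  · intro g q _ h
    exact many_forced hΘ g q h
  · intro A
    exact noDiamond_forced hΘ A p

end Pool.Agent.Zk92.Kur
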