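import Pool.Agent.Zk92.Kur.Defs
import Pool.Agent.R591.SPL.Poset

/-!
# The notion of forcing: a Kurepa family times countable partial functions
-/

open Set Cardinal Pool.Agent.Helper669.Forcing
open Pool.Agent.R591.SPL (fiff SameSet PF Cn)

namespace Pool.Agent.Zk92.Kur

/-- the well-order `ω₁` -/
abbrev W1 : Type := (ℵ₁ : Cardinal.{0}).ord.ToType

/-- Conditions for a Kurepa family indexed by `N`: a height `δ`, a nonempty countable set `D` of
indices, and the values `x i ξ` (relevant for `i ∈ D` and `ξ < δ`). -/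
structure KC (N : Type) where
  δ : W1
  D : Set N
  x : N → W1 → Bool
  hD : D.Countable
  hne : D.Nonempty

instance (N : Type) : Preorder (KC N) where
  le q p := p.δ ≤ q.δ ∧ p.D ⊆ q.D ∧ (∀ i ∈ p.D, ∀ ξ < p.δ, q.x i ξ = p.x i ξ) ∧
    ∀ i ∈ q.D, ∃ j ∈ p.D, ∀ ξ < p.δ, q.x i ξ = p.x j ξ
  le_refl p := ⟨le_rfl, Subset.rfl, fun _ _ _ _ => rfl, fun i hi => ⟨i, hi, fun _ _ => rfl⟩⟩
  le_trans r q p h1 h2 := by
    refine ⟨h2.1.trans h1.1, h2.2.1.trans h1.2.1, fun i hi ξ hξ => ?_, fun i hi => ?_⟩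
    · rw [h1.2.2.1 i (h2.2.1 hi) ξ (hξ.trans_le h2.1), h2.2.2.1 i hi ξ hξ]
    · obtain ⟨j, hj, h3⟩ := h1.2.2.2 i hi
      obtain ⟨k, hk, h4⟩ := h2.2.2.2 j hj
      exact ⟨k, hk, fun ξ hξ => by rw [h3 ξ (hξ.trans_le h2.1), h4 ξ hξ]⟩

variable {N : Type}

theorem KC.le_def {q p : KC N} : q ≤ p ↔ p.δ ≤ q.δ ∧ p.D ⊆ q.D ∧
    (∀ i ∈ p.D, ∀ ξ < p.δ, q.x i ξ = p.x i ξ) ∧
    ∀ i ∈ q.D, ∃ j ∈ p.D, ∀ ξ < p.δ, q.x i ξ = p.x j ξ := Iff.rfl

theorem W_Iio (x : W1) : (Iio x).Countable := by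
  rw [← Cardinal.le_aleph0_iff_set_countable]
  have h : #(Iio x) < #W1 := Cardinal.mk_Iio_lt x (by
    rw [Cardinal.mk_ord_toType]
    exact (Ordinal.type_toType _).symm)
  have h2 : #W1 = Order.succ ℵ₀ := by rw [Cardinal.mk_ord_toType, succ_aleph0]
  exact Order.lt_succ_iff.1 (h.trans_eq h2)

theorem W_unc : ¬ (univ : Set W1).Countable := by
  intro h
  have h1 : #(univ : Set W1) ≤ ℵ₀ := h.le_aleph0
  rw [mk_univ, Cardinal.mk_ord_toType] at h1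
  exact absurd aleph0_lt_aleph_one (not_lt.2 h1)

theorem W_bdd (s : Set W1) (hs : s.Countable) : ∃ δ : W1, ∀ x ∈ s, x < δ := by
  by_contra hcon
  push Not at hcon
  apply W_unc
  have : (univ : Set W1) ⊆ ⋃ x ∈ s, Iic x := by
    intro δ _
    obtain ⟨x, hx, h⟩ := hcon δ
    exact mem_iUnion₂.2 ⟨x, hx, h⟩
  refine (hs.biUnion (fun x _ => ?_)).mono this
  have : (Iic x : Set W1) = insert x (Iio x) := by
    ext y; simp [le_iff_lt_or_eq, or_comm]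
  rw [this]
  exact (W_Iio x).insert x

/-- least upper bounds of sequences -/
theorem W_sup (f : ℕ → W1) : ∃ δ : W1, (∀ n, f n ≤ δ) ∧ ∀ γ < δ, ∃ n, γ < f n := by
  classical
  obtain ⟨b, hb⟩ := W_bdd (range f) (countable_range f)
  have hex : {δ : W1 | ∀ n, f n ≤ δ}.Nonempty := ⟨b, fun n => (hb _ ⟨n, rfl⟩).le⟩
  refine ⟨wellFounded_lt.min _ hex, wellFounded_lt.min_mem _ hex, fun γ hγ => ?_⟩
  by_contra hcon
  push Not at hcon
  exact wellFounded_lt.not_lt_min {δ : W1 | ∀ n, f n ≤ δ} (x := γ) hcon hγ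

instance : Nonempty W1 := by
  by_contra hne
  rw [not_nonempty_iff] at hne
  exact W_unc (Set.to_countable _)

/-- raising the height -/
theorem KC.exists_height (p : KC N) {δ : W1} (h : p.δ ≤ δ) : ∃ q ≤ p, q.δ = δ ∧ q.D = p.D := by
  classical
  refine ⟨⟨δ, p.D, fun i ξ => if ξ < p.δ then p.x i ξ else false, p.hD, p.hne⟩, ?_, rfl, rfl⟩
  refine ⟨h, Subset.rfl, fun i _ ξ hξ => ?_, fun i hi => ⟨i, hi, fun ξ hξ => ?_⟩⟩
  · simp [hξ]
  · simp [hξ]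

/-- adding an index -/
theorem KC.exists_index (p : KC N) (i : N) : ∃ q ≤ p, i ∈ q.D ∧ q.δ = p.δ := by
  classical
  by_cases hi : i ∈ p.D
  · exact ⟨p, le_rfl, hi, rfl⟩
  obtain ⟨j, hj⟩ := p.hne
  refine ⟨⟨p.δ, insert i p.D, fun k ξ => if k = i then p.x j ξ else p.x k ξ, p.hD.insert i,
    insert_nonempty _ _⟩, ?_, mem_insert _ _, rfl⟩
  refine ⟨le_rfl, subset_insert _ _, fun k hk ξ hξ => ?_, fun k hk => ?_⟩
  · have : k ≠ i := fun h => hi (h ▸ hk)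
    simp [this]
  · by_cases hki : k = i
    · exact ⟨j, hj, fun ξ _ => by simp [hki]⟩
    · refine ⟨k, ?_, fun ξ _ => by simp [hki]⟩
      rcases hk with hk | hk
      · exact absurd hk hki
      · exact hk

/-- separating two indices -/
theorem KC.exists_sep (p : KC N) {i j : N} (hi : i ∈ p.D) (hj : j ∈ p.D) (hij : i ≠ j) :
    ∃ q ≤ p, ∃ ξ < q.δ, q.x i ξ = true ∧ q.x j ξ = false ∧ i ∈ q.D ∧ j ∈ q.D := by
  classical
  obtain ⟨δ, hδ⟩ := W_bdd {p.δ} (countable_singleton _)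
  have hδ' : p.δ < δ := hδ _ rfl
  refine ⟨⟨δ, p.D, fun k ξ => if ξ < p.δ then p.x k ξ else decide (k = i), p.hD, p.hne⟩, ?_, p.δ,
    hδ', by simp, by simp [hij.symm], hi, hj⟩
  refine ⟨hδ'.le, Subset.rfl, fun i _ ξ hξ => ?_, fun i hi => ⟨i, hi, fun ξ hξ => ?_⟩⟩
  · simp [hξ]
  · simp [hξ]

/-- descending sequences have lower bounds -/
theorem KC.exists_inf (p : ℕ → KC N) (hp : ∀ n, p (n + 1) ≤ p n) : ∃ q : KC N, ∀ n, q ≤ p n := by
  classical
  have hmono : ∀ m n, m ≤ n → p n ≤ p m := by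
    intro m n h
    induction n, h using Nat.le_induction with
    | base => exact le_rfl
    | succ n _ ih => exact (hp n).trans ih
  obtain ⟨δ, hδ1, hδ2⟩ := W_sup fun n => (p n).δ
  let x : N → W1 → Bool := fun i ξ =>
    if h : ∃ n, i ∈ (p n).D ∧ ξ < (p n).δ then (p h.choose).x i ξ else false
  have hx : ∀ n i ξ, i ∈ (p n).D → ξ < (p n).δ → x i ξ = (p n).x i ξ := by
    intro n i ξ hi hξ
    have h : ∃ n, i ∈ (p n).D ∧ ξ < (p n).δ := ⟨n, hi, hξ⟩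
    show (if h : ∃ n, i ∈ (p n).D ∧ ξ < (p n).δ then (p h.choose).x i ξ else false) = _
    rw [dif_pos h]
    obtain ⟨h1, h2⟩ := h.choose_spec
    rcases le_total n h.choose with h3 | h3
    · exact (hmono _ _ h3).2.2.1 i hi ξ hξ
    · exact ((hmono _ _ h3).2.2.1 i h1 ξ h2).symm
  refine ⟨⟨δ, ⋃ n, (p n).D, x, countable_iUnion fun n => (p n).hD, ?_⟩, fun m => ?_⟩
  · obtain ⟨i, hi⟩ := (p 0).hne
    exact ⟨i, mem_iUnion.2 ⟨0, hi⟩⟩
  · refine ⟨hδ1 m, subset_iUnion (fun n => (p n).D) m, fun i hi ξ hξ => hx m i ξ hi hξ,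
      fun i hi => ?_⟩
    obtain ⟨n, hn⟩ := mem_iUnion.1 hi
    rcases le_total m n with h | h
    · have hnm := hmono _ _ h
      obtain ⟨j, hj, h2⟩ := hnm.2.2.2 i hn
      refine ⟨j, hj, fun ξ hξ => ?_⟩
      have h3 := hx n i ξ hn (hξ.trans_le hnm.1)
      show x i ξ = _
      rw [h3, h2 ξ hξ]
    · exact ⟨i, (hmono _ _ h).2.1 hn, fun ξ hξ => hx m i ξ ((hmono _ _ h).2.1 hn) hξ⟩

/-- two conditions with the same height, the same values and which agree on the common indices -/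
theorem KC.exists_union {p q : KC N} (hδ : p.δ = q.δ)
    (h1 : ∀ i ∈ p.D, i ∈ q.D → ∀ ξ < p.δ, p.x i ξ = q.x i ξ)
    (h2 : ∀ i ∈ p.D, ∃ j ∈ q.D, ∀ ξ < p.δ, p.x i ξ = q.x j ξ)
    (h3 : ∀ i ∈ q.D, ∃ j ∈ p.D, ∀ ξ < p.δ, q.x i ξ = p.x j ξ) : ∃ r : KC N, r ≤ p ∧ r ≤ q := by
  classical
  refine ⟨⟨p.δ, p.D ∪ q.D, fun i ξ => if i ∈ p.D then p.x i ξ else q.x i ξ, p.hD.union q.hD,
    p.hne.mono subset_union_left⟩, ?_, ?_⟩
  · refine ⟨le_rfl, subset_union_left, fun i hi ξ hξ => by simp [hi], fun i hi => ?_⟩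
    by_cases hip : i ∈ p.D
    · exact ⟨i, hip, fun ξ _ => by simp [hip]⟩
    · obtain ⟨j, hj, h4⟩ := h3 i (hi.resolve_left hip)
      exact ⟨j, hj, fun ξ hξ => by simp [hip, h4 ξ hξ]⟩
  · refine ⟨hδ.ge, subset_union_right, fun i hi ξ hξ => ?_, fun i hi => ?_⟩
    · rw [← hδ] at hξ
      by_cases hip : i ∈ p.D
      · simp [hip, h1 i hip hi ξ hξ]
      · simp [hip]
    · rw [← hδ]
      by_cases hip : i ∈ p.D
      · obtain ⟨j, hj, h4⟩ := h2 i hip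
        exact ⟨j, hj, fun ξ hξ => by simp [hip, h4 ξ hξ]⟩
      · exact ⟨i, hi.resolve_left hip, fun ξ _ => by simp [hip]⟩

/-! ### The product -/

variable {D : Type}

/-- the notion of forcing -/
abbrev PP (N D : Type) : Type := KC N × Cn D

theorem exists_lim (b : ℕ → Cn D) (hb : ∀ n, b (n + 1) ≤ b n) : ∃ c : Cn D, (∀ n, c ≤ b n) ∧
    ∀ x v, c.f x = some v → ∃ n, (b n).f x = some v := by
  classical
  have hmono : ∀ m n, m ≤ n → b n ≤ b m := by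
    intro m n h
    induction n, h using Nat.le_induction with
    | base => exact le_rfl
    | succ n _ ih => exact (hb n).trans ih
  let f : D → Option Bool := fun x =>
    if h : ∃ n, (b n).f x ≠ none then (b h.choose).f x else none
  refine ⟨⟨f, ?_⟩, ?_, ?_⟩
  · refine (Set.countable_iUnion (fun n => (b n).sm)).mono ?_
    intro x hx
    by_cases h : ∃ n, (b n).f x ≠ none
    · exact mem_iUnion.2 h
    · simp only [f, h, dif_neg, not_false_iff, mem_ofPred_eq, ne_eq, not_true] at hx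
  · intro n x v hv
    have h : ∃ n, (b n).f x ≠ none := ⟨n, by simp [hv]⟩
    simp only [f, h, dif_pos]
    obtain ⟨w, hw⟩ := Option.ne_none_iff_exists'.1 h.choose_spec
    rcases le_total n h.choose with h1 | h1
    · exact hmono _ _ h1 x v hv
    · have h2 := hmono _ _ h1 x w hw
      rw [hv] at h2
      rw [hw, h2]
  · intro x v hv
    have hv' : (if h : ∃ n, (b n).f x ≠ none then (b h.choose).f x else none) = some v := hv
    by_cases h : ∃ n, (b n).f x ≠ none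
    · rw [dif_pos h] at hv'
      exact ⟨_, hv'⟩
    · rw [dif_neg h] at hv'
      cases hv'

theorem PP.exists_inf (p : ℕ → PP N D) (hp : ∀ n, p (n + 1) ≤ p n) : ∃ q : PP N D, ∀ n, q ≤ p n := by
  obtain ⟨k, hk⟩ := KC.exists_inf (fun n => (p n).1) (fun n => (hp n).1)
  obtain ⟨g, hg, -⟩ := exists_lim (fun n => (p n).2) (fun n => (hp n).2)
  exact ⟨(k, g), fun n => ⟨hk n, hg n⟩⟩

/-- countably many dense sets can be met -/
theorem PP.exists_meet {𝒟 : ℕ → Set (PP N D)} (hdown : ∀ n, Down (𝒟 n)) (p : PP N D)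
    (hdense : ∀ n, ∀ q ≤ p, ∃ r ≤ q, r ∈ 𝒟 n) : ∃ r ≤ p, ∀ n, r ∈ 𝒟 n := by
  have hstep : ∀ n (q : {q : PP N D // q ≤ p}), ∃ r : {q : PP N D // q ≤ p}, r.1 ≤ q.1 ∧
      r.1 ∈ 𝒟 n := by
    rintro n ⟨q, hq⟩
    obtain ⟨r, hr, hr2⟩ := hdense n q hq
    exact ⟨⟨r, hr.trans hq⟩, hr, hr2⟩
  choose F hF1 hF2 using hstep
  let s : ℕ → {q : PP N D // q ≤ p} := fun n => Nat.rec ⟨p, le_rfl⟩ (fun n q => F n q) n
  have hs : ∀ n, s (n + 1) = F n (s n) := fun n => rfl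
  obtain ⟨r, hr⟩ := PP.exists_inf (fun n => (s n).1) (fun n => by rw [hs]; exact hF1 _ _)
  refine ⟨r, (hr 0).trans (s 0).2, fun n => ?_⟩
  have h1 := hF2 n (s n)
  rw [← hs] at h1
  exact hdown n _ h1 _ (hr (n + 1))

end Pool.Agent.Zk92.Kur
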